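import Mathlib

set_option autoImplicit false

namespace Pool.Agent.Helper894.Collatz

open Finset

/-- The 3x+1 map. -/
def T (m : ℕ) : ℕ := if m % 2 = 0 then m / 2 else (3 * m + 1) / 2

/-- number of odd terms among the first `k` terms of the trajectory of `x` -/
def od (k x : ℕ) : ℕ := ∑ i ∈ range k, (T^[i] x) % 2

/-- the additive error term -/
def er : ℕ → ℕ → ℕ
  | 0, _ => 0
  | k + 1, x => if (T^[k] x) % 2 = 0 then er k x else 3 * er k x + 2 ^ k

theorem er_succ (k x : ℕ) :
    er (k + 1) x = if (T^[k] x) % 2 = 0 then er k x else 3 * er k x + 2 ^ k := rfl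

theorem od_succ (k x : ℕ) : od (k + 1) x = od k x + (T^[k] x) % 2 := by
  unfold od; rw [sum_range_succ]

theorem od_add (k l x : ℕ) : od (k + l) x = od k x + od l (T^[k] x) := by
  unfold od
  rw [sum_range_add]
  congr 1
  apply sum_congr rfl
  intro i _
  rw [add_comm, Function.iterate_add_apply]

theorem T_even {m : ℕ} (h : m % 2 = 0) : 2 * T m = m := by
  unfold T; rw [if_pos h]; omega

theorem T_odd {m : ℕ} (h : m % 2 = 1) : 2 * T m = 3 * m + 1 := by
  unfold T; rw [if_neg (by omega)]; omega

/-- the linear form of the iterates -/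
theorem iter_eq (k x : ℕ) : 2 ^ k * T^[k] x = 3 ^ (od k x) * x + er k x := by
  induction k with
  | zero => simp [od, er]
  | succ k ih =>
    rw [Function.iterate_succ_apply', od_succ]
    unfold er
    rcases Nat.mod_two_eq_zero_or_one (T^[k] x) with h | h
    · rw [if_pos h, h, add_zero, pow_succ, mul_assoc, T_even h, ih]
    · rw [if_neg (by omega), h, pow_succ, pow_succ, mul_assoc, T_odd h]
      have : 2 ^ k * (3 * T^[k] x + 1) = 3 * (2 ^ k * T^[k] x) + 2 ^ k := by ring
      rw [this, ih]; ring

/-- dependence on the residue modulo `2^k` -/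
theorem period (k : ℕ) : ∀ x c : ℕ, T^[k] (x + 2 ^ k * c) = T^[k] x + 3 ^ (od k x) * c ∧
    od k (x + 2 ^ k * c) = od k x ∧ er k (x + 2 ^ k * c) = er k x := by
  induction k with
  | zero => intro x c; simp [od, er]
  | succ k ih =>
    intro x c
    obtain ⟨h1, h2, h3⟩ := ih x (2 * c)
    have e : x + 2 ^ (k + 1) * c = x + 2 ^ k * (2 * c) := by ring
    rw [e]
    have hpar : (T^[k] (x + 2 ^ k * (2 * c))) % 2 = (T^[k] x) % 2 := by
      rw [h1]
      have : 3 ^ od k x * (2 * c) = 2 * (3 ^ od k x * c) := by ring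
      omega
    refine ⟨?_, ?_, ?_⟩
    · rw [Function.iterate_succ_apply', Function.iterate_succ_apply', od_succ]
      rcases Nat.mod_two_eq_zero_or_one (T^[k] x) with h | h
      · have a1 := T_even h
        have a2 := T_even (hpar.trans h)
        rw [h1] at a2 ⊢
        rw [h, add_zero]
        have : 3 ^ od k x * (2 * c) = 2 * (3 ^ od k x * c) := by ring
        omega
      · have a1 := T_odd h
        have a2 := T_odd (hpar.trans h)
        rw [h1] at a2 ⊢
        rw [h, pow_succ]
        have : 3 ^ od k x * (2 * c) = 2 * (3 ^ od k x * c) := by ring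
        have : 3 ^ od k x * 3 * c = 3 * (3 ^ od k x * c) := by ring
        omega
    · rw [od_succ, od_succ, hpar, h2]
    · unfold er
      rw [hpar, h3]

theorem lt_pow (k : ℕ) : ∀ x c : ℕ, x < 2 ^ k * c → T^[k] x < 3 ^ (od k x) * c := by
  induction k with
  | zero => intro x c h; simpa [od] using h
  | succ k ih =>
    intro x c h
    have h1 := ih x (2 * c) (by rw [pow_succ] at h; linarith)
    rw [Function.iterate_succ_apply', od_succ]
    have e : 3 ^ od k x * (2 * c) = 2 * (3 ^ od k x * c) := by ring
    rcases Nat.mod_two_eq_zero_or_one (T^[k] x) with h' | h'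
    · have a1 := T_even h'
      rw [h', add_zero]
      omega
    · have a1 := T_odd h'
      rw [h', pow_succ]
      have : 3 ^ od k x * 3 * c = 3 * (3 ^ od k x * c) := by ring
      omega

/-- of `x` and `x + 2^k` exactly one has an odd `k`-th iterate -/
theorem flip_parity (k x : ℕ) : (T^[k] (x + 2 ^ k)) % 2 = 1 - (T^[k] x) % 2 := by
  have h := (period k x 1).1
  rw [mul_one, mul_one] at h
  rw [h]
  have h3 : (3 ^ od k x) % 2 = 1 := by
    rw [Nat.pow_mod]; simp
  omega

theorem od_shift (k x : ℕ) : od k (x + 2 ^ k) = od k x := by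
  have h := (period k x 1).2.1
  rwa [mul_one] at h

theorem er_shift (k x : ℕ) : er k (x + 2 ^ k) = er k x := by
  have h := (period k x 1).2.2
  rwa [mul_one] at h

theorem sum_er (k : ℕ) : 4 * ∑ x ∈ range (2 ^ k), er k x = k * 4 ^ k := by
  induction k with
  | zero => simp [er]
  | succ k ih =>
    have h : ∑ x ∈ range (2 ^ (k + 1)), er (k + 1) x =
        ∑ x ∈ range (2 ^ k), (4 * er k x + 2 ^ k) := by
      rw [pow_succ, mul_two, sum_range_add, ← sum_add_distrib]
      apply sum_congr rfl
      intro x _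
      rw [add_comm (2 ^ k) x, er_succ, er_succ, flip_parity, er_shift]
      rcases Nat.mod_two_eq_zero_or_one (T^[k] x) with h | h
      · rw [h]; simp; ring
      · rw [h]; simp; ring
    rw [h, sum_add_distrib, ← mul_sum, sum_const, card_range, smul_eq_mul]
    have : 2 ^ k * 2 ^ k = 4 ^ k := by rw [← mul_pow]; norm_num
    rw [this, ih, pow_succ]; ring

theorem sum_pow_od (k : ℕ) (z : ℝ) : ∑ x ∈ range (2 ^ k), z ^ (od k x) = (1 + z) ^ k := by
  induction k with
  | zero => simp [od]
  | succ k ih =>
    rw [pow_succ 2, mul_two, sum_range_add, ← sum_add_distrib, pow_succ, ← ih, sum_mul]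
    apply sum_congr rfl
    intro x _
    rw [add_comm (2 ^ k) x, od_succ, od_succ, flip_parity, od_shift]
    rcases Nat.mod_two_eq_zero_or_one (T^[k] x) with h | h
    · rw [h]; simp [pow_succ]; ring
    · rw [h]; simp [pow_succ]; ring

end Pool.Agent.Helper894.Collatz
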